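import Pool.Agent.Helper59.MB.Goals1

/-!
Project MB (MP_49a1ce_an), packet PHS (helper77): residues of 2-adic integers.
-/

set_option autoImplicit false

namespace Pool.Agent.Helper77.MB

open Pool.Agent.Helper59.MB Topology

theorem ph_lt (k : ℕ) (t : ℤ_[2]) : ph k t < 2 ^ k := by
  have : NeZero (2 ^ k) := ⟨pow_ne_zero _ two_ne_zero⟩
  exact ZMod.val_lt _

theorem ph_add (k : ℕ) (t : ℤ_[2]) (n : ℤ) :
    ((ph k (t + (n : ℤ_[2])) : ℕ) : ℤ) = ((ph k t : ℤ) + n) % 2 ^ k := by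
  have : NeZero (2 ^ k) := ⟨pow_ne_zero _ two_ne_zero⟩
  have h1 : PadicInt.toZModPow k (t + (n : ℤ_[2])) =
      (((ph k t : ℤ) + n : ℤ) : ZMod (2 ^ k)) := by
    rw [map_add, map_intCast, Int.cast_add, Int.cast_natCast, ph, ZMod.natCast_zmod_val]
  rw [ph, h1, ZMod.val_intCast]
  push_cast
  rfl

theorem ph_mod (k j : ℕ) (t : ℤ_[2]) (h : j ≤ k) : ph k t % 2 ^ j = ph j t := by
  have : NeZero (2 ^ k) := ⟨pow_ne_zero _ two_ne_zero⟩
  have : NeZero (2 ^ j) := ⟨pow_ne_zero _ two_ne_zero⟩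
  rw [ph, ph, ← PadicInt.cast_toZModPow j k h t, ZMod.cast_eq_val, ZMod.val_natCast]

theorem ph_cont (k : ℕ) : Continuous (ph k) := by
  refine IsLocallyConstant.continuous ?_
  rw [IsLocallyConstant.iff_eventually_eq]
  intro t
  have hpos : (0 : ℝ) < ((2 : ℕ) : ℝ) ^ (-(k : ℤ)) := by positivity
  filter_upwards [Metric.ball_mem_nhds t hpos] with t' ht'
  have h1 : ‖t' - t‖ ≤ ((2 : ℕ) : ℝ) ^ (-(k : ℤ)) := by
    rw [Metric.mem_ball, dist_eq_norm] at ht'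
    exact ht'.le
  rw [PadicInt.norm_le_pow_iff_mem_span_pow, ← PadicInt.ker_toZModPow, RingHom.mem_ker, map_sub,
    sub_eq_zero] at h1
  rw [ph, ph, h1]

/-- **PHS** -/
theorem t_PHS : S_PHS := by
  refine ⟨ph_lt, ph_add, ph_mod, ph_cont, ?_, ?_⟩
  · intro t t' h
    refine PadicInt.ext_of_toZModPow.mp fun k => ?_
    have : NeZero (2 ^ k) := ⟨pow_ne_zero _ two_ne_zero⟩
    exact ZMod.val_injective _ (h k)
  · intro k
    rw [ph, map_zero, ZMod.val_zero]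

end Pool.Agent.Helper77.MB
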